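import Pool.Agent.H34.HilbertGrowthProof

/-!
# A non-amenable Polish group with an affine isometric action on `ℓ²` of linear growth

We show that there is a Polish group `G` with a maximal compatible left-invariant metric `d` and a
continuous affine isometric action on a Hilbert space whose cocycle `b` satisfies
`d(g,1) - C ≤ ‖b(g)‖ ≤ d(g,1)`, and which is not amenable.  The group is a group of isometries of the
Hilbert space `ℓ²(ℕ × F)` (`F` a free group) with the topology of pointwise convergence: it is the
semidirect product of `ℓ²(ℕ × F)` with the group of all permutations of `ℕ × F` which commute with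
the right translations by `F`.
-/

set_option autoImplicit false
open Topology Filter Pool.Agent.H34.HilbertGrowth

namespace Pool.Agent.Results.MP_5f76cf_al.NonAmenableLinearGrowth

/-- There is a non-amenable Polish group `G` with a maximal compatible left-invariant metric `d` and a
continuous affine isometric action on a Hilbert space whose cocycle grows faster than the square root
of the distance; in fact the cocycle has linear growth. -/
theorem result :
    ∃ (G : Type) (_ : Group G) (_ : TopologicalSpace G) (_ : IsTopologicalGroup G)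
      (_ : PolishSpace G) (d : G → G → ℝ)
      (H : Type) (_ : NormedAddCommGroup H) (_ : InnerProductSpace ℝ H) (_ : CompleteSpace H)
      (α : AffineIsometricAction G H),
      IsMaximalMetric G d ∧
      (∃ a > (1 / 2 : ℝ), ∃ C > (0 : ℝ), ∀ g, ‖α.coc g‖ ≥ (1 / C) * (d g 1) ^ a - C) ∧
      ¬ IsAmenable G ∧
      (∃ C : ℝ, ∀ g, d g 1 - C ≤ ‖α.coc g‖ ∧ ‖α.coc g‖ ≤ d g 1) ∧
      IsEmbedding (fun (g : G) (ξ : H) => α.lin g ξ + α.coc g) ∧
      (∀ ξ η : H, ∃ g, α.lin g ξ + α.coc g = η) ∧
      (∀ K : ℝ, ∃ g, K < d g 1) := by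
  obtain ⟨C0, hC0⟩ := exists_dist_le (F := FreeGroup (Fin 3))
  have hup : ∀ g : AG (FreeGroup (Fin 3)), ‖g.vec‖ ≤ dist g 1 := by
    intro g
    rw [AG.dist_def]
    refine le_trans (le_of_eq ?_) (le_max_left _ _)
    rw [AG.one_def]
    simp only
    rw [dist_zero_right]
  have hlow : ∀ g : AG (FreeGroup (Fin 3)), dist g 1 - max C0 0 ≤ ‖g.vec‖ := by
    intro g
    rw [AG.dist_def, AG.one_def]
    simp only
    rw [dist_zero_right]
    have h1 := hC0 g.perm 1
    have h2 := norm_nonneg g.vec
    rcases max_cases (‖g.vec‖) (dist g.perm 1) with h | h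
    · rw [h.1]
      have := le_max_right C0 0
      linarith
    · rw [h.1]
      have := le_max_left C0 0
      linarith
  refine ⟨AG (FreeGroup (Fin 3)), inferInstance, inferInstance, inferInstance, inferInstance,
    fun a b => dist a b, HS (FreeGroup (Fin 3)), inferInstance, inferInstance, inferInstance,
    tautAction (FreeGroup (Fin 3)), isMaximal_dist, ?_, ?_, ?_, isEmbedding_taut, ?_, ?_⟩
  · refine ⟨1, by norm_num, max C0 1, lt_of_lt_of_le one_pos (le_max_right _ _), fun g => ?_⟩
    rw [Real.rpow_one]
    have h1 := hlow g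
    have h2 : (1 / max C0 1) * dist g 1 ≤ dist g 1 := by
      have h3 : 1 / max C0 1 ≤ 1 := by
        rw [div_le_one (lt_of_lt_of_le one_pos (le_max_right _ _))]
        exact le_max_right _ _
      calc (1 / max C0 1) * dist g 1 ≤ 1 * dist g 1 := by gcongr
        _ = dist g 1 := one_mul _
    have h4 : max C0 0 ≤ max C0 1 := max_le_max le_rfl zero_le_one
    have h5 : ‖(tautAction (FreeGroup (Fin 3))).coc g‖ = ‖g.vec‖ := rfl
    rw [h5]
    linarith
  · exact not_isAmenable (ℕ → Bool) cantorAct no_invariant
  · exact ⟨max C0 0, fun g => ⟨hlow g, hup g⟩⟩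
  · intro ξ η
    refine ⟨⟨η - ξ, 1⟩, ?_⟩
    change rho 1 ξ + (η - ξ) = η
    rw [rho_one]
    abel
  · intro K
    refine ⟨⟨lp.single 2 (0, 1) (|K| + 1), 1⟩, ?_⟩
    refine lt_of_lt_of_le ?_ (hup _)
    simp only
    rw [lp.norm_single (by norm_num), Real.norm_eq_abs]
    have h1 : |(|K| + 1)| = |K| + 1 := abs_of_pos (by positivity)
    rw [h1]
    have := le_abs_self K
    linarith

end Pool.Agent.Results.MP_5f76cf_al.NonAmenableLinearGrowth
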